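import Pool.Agent.H88.B2.Targets

/-! Board `bpd_modules`, row DEN: density of the points in the planks of the cap of radius `1/w`. -/

set_option autoImplicit false

namespace Pool.Agent.H42.B2.DEN

open MeasureTheory Set
open Pool.Agent.H83.G Pool.Agent.H88.B2
open scoped ENNReal NNReal RealInnerProductSpace

private theorem Lo_add {m : ℕ} (η : E m) (s : ℝ) (a b : Z m) :
    Lo η s (a + b) = Lo η s a + Lo η s b := by
  refine Prod.ext ?_ (Prod.ext ?_ ?_)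
  · change (a.1 + b.1) + ⟪a.2.1 + b.2.1, η⟫ + (a.2.2 + b.2.2) * ‖η‖ ^ 2 =
      (a.1 + ⟪a.2.1, η⟫ + a.2.2 * ‖η‖ ^ 2) + (b.1 + ⟪b.2.1, η⟫ + b.2.2 * ‖η‖ ^ 2)
    rw [inner_add_left]
    ring
  · change s • ((a.2.1 + b.2.1) + (2 * (a.2.2 + b.2.2)) • η) =
      s • (a.2.1 + (2 * a.2.2) • η) + s • (b.2.1 + (2 * b.2.2) • η)
    rw [← smul_add, mul_add, add_smul]
    congr 1
    abel
  · change s ^ 2 * (a.2.2 + b.2.2) = s ^ 2 * a.2.2 + s ^ 2 * b.2.2
    ring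

private theorem Lo_zero {m : ℕ} (η : E m) (s : ℝ) : Lo η s 0 = 0 := by
  have h := Lo_add η s 0 0
  rw [add_zero] at h
  exact left_eq_add.1 h

private theorem Lo_neg {m : ℕ} (η : E m) (s : ℝ) (a : Z m) : Lo η s (-a) = -Lo η s a := by
  have h := Lo_add η s (-a) a
  rw [neg_add_cancel, Lo_zero] at h
  exact eq_neg_of_add_eq_zero_left h.symm

private theorem Lt_add {m : ℕ} (η : E m) (w : ℝ) (a b : Z m) :
    Lt η w (a + b) = Lt η w a + Lt η w b := by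
  unfold Lt
  rw [Lo_add]
  refine Prod.ext ?_ rfl
  change w⁻¹ * ((Lo η w⁻¹ a).1 + (Lo η w⁻¹ b).1) =
    w⁻¹ * (Lo η w⁻¹ a).1 + w⁻¹ * (Lo η w⁻¹ b).1
  ring

private theorem cont_Lo {m : ℕ} (η : E m) (s : ℝ) : Continuous (Lo η s : Z m → Z m) := by
  unfold Lo
  fun_prop

private theorem cont_wt {m : ℕ} (N : ℕ) : Continuous (wt N : Z m → ℝ) := by
  unfold wt
  refine Continuous.inv₀ (by fun_prop) fun z => ?_
  have : (0 : ℝ) < 1 + ‖z‖ := by positivity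
  positivity

private theorem cont_ww {m : ℕ} (N : ℕ) (R δ w : ℝ) (W : Pk m) :
    Continuous (ww N R δ w W : Z m → ℝ) := by
  have hfc : Continuous (fun z : Z m => fc R δ W.1 z - zc W.2) := by
    unfold fc
    have h0 : Continuous (Lo (ctr (sR R) W.1) (sR R) : Z m → Z m) := cont_Lo _ _
    exact Continuous.sub (by fun_prop) continuous_const
  unfold ww
  refine Continuous.mul (Continuous.inv₀ ?_ fun z => ?_) (Continuous.inv₀ ?_ fun z => ?_)
  · exact (continuous_const.add (continuous_const.mul hfc.fst).abs).pow _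
  · positivity
  · exact (continuous_const.add hfc.snd.norm).pow _
  · positivity

private theorem ww_pos {m : ℕ} (N : ℕ) (R δ w : ℝ) (W : Pk m) (z : Z m) :
    0 < ww N R δ w W z := by
  unfold ww
  positivity

/-- slow variation of the sums -/
private theorem Nd_le {m : ℕ} (N : ℕ) (R δ w c : ℝ) (P : Finset (Pk m)) (z z' : Z m)
    (h : ∀ W ∈ P, ww N R δ w W z ≤ c * ww N R δ w W z') :
    Nd N R δ w P z ≤ c * Nd N R δ w P z' := by
  unfold Nd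
  rw [Finset.mul_sum]
  exact Finset.sum_le_sum h

theorem pf_DEN (hDI1 : T_DI1) (hWWS : T_WWS) (hOM1 : T_OM1) (_hWT1 : T_WT1) : T_DEN := by
  intro m N N₁ N₂ hm hN hN₁ hN₂
  obtain ⟨n₁, rfl⟩ : ∃ n₁, N₁ = 4 * N + n₁ := ⟨N₁ - 4 * N, by omega⟩
  obtain ⟨n₂, rfl⟩ : ∃ n₂, N₂ = 2 * N + n₂ := ⟨N₂ - 2 * N, by omega⟩
  obtain ⟨Cs, hCs, hw1, hw2, -, hw4⟩ := hWWS m N
  obtain ⟨Co, hCo, hOM⟩ := hOM1 m n₁ (by omega)
  obtain ⟨Cd, hCd, hDI⟩ := hDI1 m N n₂ hm hN (by omega)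
  have hCs0 : 0 < Cs := by linarith
  refine ⟨Cs ^ (2 * N + 2) * Co * Cd, ?_, ?_⟩
  · exact one_le_mul_of_one_le_of_one_le
      (one_le_mul_of_one_le_of_one_le (one_le_pow₀ hCs) hCo) hCd
  intro R δ w K D D' η P Q u hR hδ hw hwR hK hD hD' hη hP hQ hx
  have hw0 : 0 < w := by linarith
  have hwR1 : w ≤ Real.sqrt R := by nlinarith
  rcases Q.eq_empty_or_nonempty with rfl | ⟨x₀, hx₀⟩
  · unfold Om
    simp
  have hPne : P.Nonempty := by
    rw [Finset.nonempty_iff_ne_empty]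
    rintro rfl
    have h1 := (hx x₀ hx₀).1
    unfold Nd at h1
    rw [Finset.sum_empty] at h1
    have : 0 < w * D := by positivity
    linarith
  have hNu : 0 < Nd N R δ (w ^ 2) P u := by
    unfold Nd
    exact Finset.sum_pos (fun W _ => ww_pos _ _ _ _ _ _) hPne
  have hNy : ∀ y, 0 ≤ Nd N R δ w P y := fun y =>
    Finset.sum_nonneg fun W _ => (ww_pos _ _ _ _ _ _).le
  obtain ⟨A, hA⟩ : ∃ A : ℝ, A = Cs ^ (2 * N + 2) * (w ^ 2 * D') /
      (Nd N R δ (w ^ 2) P u * (w * D)) := ⟨_, rfl⟩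
  have hA0 : 0 ≤ A := by
    rw [hA]
    positivity
  -- one point
  have hpt : ∀ y, ∀ x ∈ Q, wt (4 * N + n₁) (w⁻¹ • (y - x)) *
      wt (2 * N + n₂) (Lo η w⁻¹ (y - u)) ≤
      A * Nd N R δ w P y * wt n₂ (Lo η w⁻¹ (y - u)) * wt n₁ (w⁻¹ • (y - x)) := by
    intro y x hxQ
    obtain ⟨a, ha⟩ : ∃ a : ℝ, a = ‖w⁻¹ • (y - x)‖ := ⟨_, rfl⟩
    obtain ⟨b, hb⟩ : ∃ b : ℝ, b = ‖Lo η w⁻¹ (y - u)‖ := ⟨_, rfl⟩
    have ha0 : 0 ≤ a := ha ▸ norm_nonneg _
    have hb0 : 0 ≤ b := hb ▸ norm_nonneg _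
    have hL : ‖Lt η w (u - x)‖ ≤ Cs * a + b := by
      have e : u - x = (u - y) + (y - x) := by abel
      rw [e, Lt_add]
      refine (norm_add_le _ _).trans ?_
      have h1 := (hw4 η w (u - y) hη hw).2
      have h2 := (hw4 η w (y - x) hη hw).1
      have e2 : u - y = -(y - u) := by abel
      rw [e2, Lo_neg, norm_neg, ← hb, ← e2] at h1
      rw [← ha] at h2
      linarith
    have hL1 : 1 + ‖Lt η w (u - x)‖ ≤ Cs * ((1 + a) * (1 + b)) := by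
      nlinarith [mul_nonneg ha0 hb0, mul_nonneg (mul_nonneg hCs0.le ha0) hb0,
        mul_nonneg (sub_nonneg.2 hCs) hb0]
    obtain ⟨hx1, hx2⟩ := hx x hxQ
    have hA1 : Nd N R δ (w ^ 2) P u ≤
        Cs * (Cs * ((1 + a) * (1 + b))) ^ (2 * N) * (w ^ 2 * D') := by
      refine (Nd_le N R δ (w ^ 2) (Cs * (1 + ‖Lt η w (u - x)‖) ^ (2 * N)) P u x
        fun W hW => hw2 R δ w η W u x hR hδ hw hwR hη (hP W hW).1).trans ?_
      have h3 : (1 + ‖Lt η w (u - x)‖) ^ (2 * N) ≤ (Cs * ((1 + a) * (1 + b))) ^ (2 * N) :=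
        pow_le_pow_left₀ (by positivity) hL1 _
      have h4 : 0 ≤ Nd N R δ (w ^ 2) P x :=
        Finset.sum_nonneg fun W _ => (ww_pos _ _ _ _ _ _).le
      exact mul_le_mul (mul_le_mul_of_nonneg_left h3 hCs0.le) hx2 h4 (by positivity)
    have hA2 : w * D ≤ Cs * (1 + a) ^ (2 * N) * Nd N R δ w P y := by
      refine hx1.trans ?_
      have h5 := Nd_le N R δ w (Cs * (1 + ‖w⁻¹ • (x - y)‖) ^ (2 * N)) P x y
        fun W hW => hw1 R δ w W x y hR hδ hw0 hwR1 (hP W hW).1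
      have e3 : ‖w⁻¹ • (x - y)‖ = a := by
        rw [ha, norm_smul, norm_smul, norm_sub_rev]
      rw [e3] at h5
      exact h5
    have hA3 : Nd N R δ (w ^ 2) P u * (w * D) ≤
        Cs ^ (2 * N + 2) * (w ^ 2 * D') * Nd N R δ w P y *
          ((1 + a) ^ (4 * N) * (1 + b) ^ (2 * N)) := by
      refine (mul_le_mul hA1 hA2 (by positivity) (by positivity)).trans (le_of_eq ?_)
      have e4 : 4 * N = 2 * N + 2 * N := by ring
      rw [mul_pow, mul_pow, pow_add Cs (2 * N) 2, e4, pow_add (1 + a)]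
      ring
    have hA4 : 1 ≤ A * Nd N R δ w P y * ((1 + a) ^ (4 * N) * (1 + b) ^ (2 * N)) := by
      have h6 : 0 < Nd N R δ (w ^ 2) P u * (w * D) := by positivity
      rw [hA, div_mul_eq_mul_div, div_mul_eq_mul_div, le_div_iff₀ h6, one_mul]
      exact hA3
    unfold wt
    rw [← ha, ← hb, pow_add (1 + a), pow_add (1 + b), mul_inv, mul_inv]
    have h7 : (0 : ℝ) < (1 + a) ^ (4 * N) := by positivity
    have h8 : (0 : ℝ) < (1 + b) ^ (2 * N) := by positivity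
    have h9 : 0 ≤ ((1 + a) ^ n₁)⁻¹ * ((1 + b) ^ n₂)⁻¹ := by positivity
    have h10 : ((1 + a) ^ (4 * N))⁻¹ * ((1 + b) ^ (2 * N))⁻¹ ≤ A * Nd N R δ w P y := by
      rw [← mul_inv, inv_le_iff_one_le_mul₀ (by positivity)]
      exact hA4
    calc ((1 + a) ^ (4 * N))⁻¹ * ((1 + a) ^ n₁)⁻¹ *
          (((1 + b) ^ (2 * N))⁻¹ * ((1 + b) ^ n₂)⁻¹)
        = (((1 + a) ^ (4 * N))⁻¹ * ((1 + b) ^ (2 * N))⁻¹) *
          (((1 + a) ^ n₁)⁻¹ * ((1 + b) ^ n₂)⁻¹) := by ring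
      _ ≤ (A * Nd N R δ w P y) * (((1 + a) ^ n₁)⁻¹ * ((1 + b) ^ n₂)⁻¹) :=
          mul_le_mul_of_nonneg_right h10 h9
      _ = _ := by ring
  have hwt0 : ∀ (n : ℕ) (z : Z m), 0 ≤ wt n z := by
    intro n z
    unfold wt
    positivity
  have hpt2 : ∀ y, Om (4 * N + n₁) w Q y * wt (2 * N + n₂) (Lo η w⁻¹ (y - u)) ≤
      (A * Co) * ∑ W ∈ P, ww N R δ w W y * wt n₂ (Lo η w⁻¹ (y - u)) := by
    intro y
    have h1 : Om (4 * N + n₁) w Q y * wt (2 * N + n₂) (Lo η w⁻¹ (y - u)) ≤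
        A * Nd N R δ w P y * wt n₂ (Lo η w⁻¹ (y - u)) * Om n₁ w Q y := by
      unfold Om
      rw [Finset.sum_mul, Finset.mul_sum]
      exact Finset.sum_le_sum fun x hxQ => hpt y x hxQ
    have h2 : Om n₁ w Q y ≤ Co := (hOM w Q hw0).2.2.1 hQ y
    have h3 : 0 ≤ A * Nd N R δ w P y * wt n₂ (Lo η w⁻¹ (y - u)) :=
      mul_nonneg (mul_nonneg hA0 (hNy y)) (hwt0 _ _)
    refine h1.trans ((mul_le_mul_of_nonneg_left h2 h3).trans (le_of_eq ?_))
    unfold Nd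
    rw [← Finset.sum_mul]
    ring
  have hmeas : ∀ W ∈ P, Measurable fun y : Z m =>
      ENNReal.ofReal (ww N R δ w W y * wt n₂ (Lo η w⁻¹ (y - u))) := by
    intro W _
    refine ENNReal.measurable_ofReal.comp (Continuous.measurable ?_)
    exact (cont_ww N R δ w W).mul
      ((cont_wt n₂).comp ((cont_Lo η w⁻¹).comp (continuous_id.sub continuous_const)))
  have hint : ∫⁻ y, ENNReal.ofReal (Om (4 * N + n₁) w Q y *
      wt (2 * N + n₂) (Lo η w⁻¹ (y - u))) ≤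
      ENNReal.ofReal (A * Co) * ∑ W ∈ P, ∫⁻ y, ENNReal.ofReal (ww N R δ w W y *
        wt n₂ (Lo η w⁻¹ (y - u))) := by
    rw [← lintegral_finsetSum _ hmeas, ← lintegral_const_mul' _ _ ENNReal.ofReal_ne_top]
    refine lintegral_mono fun y => ?_
    refine (ENNReal.ofReal_le_ofReal (hpt2 y)).trans (le_of_eq ?_)
    rw [ENNReal.ofReal_mul (mul_nonneg hA0 (by linarith)), ENNReal.ofReal_sum_of_nonneg]
    intro W _
    exact mul_nonneg (ww_pos _ _ _ _ _ _).le (hwt0 _ _)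
  have hsum : ∑ W ∈ P, ∫⁻ y, ENNReal.ofReal (ww N R δ w W y * wt n₂ (Lo η w⁻¹ (y - u))) ≤
      ENNReal.ofReal (Cd * K ^ 2 * w ^ (m + 1) * Nd N R δ (w ^ 2) P u) := by
    unfold Nd
    rw [Finset.mul_sum, ENNReal.ofReal_sum_of_nonneg]
    · exact Finset.sum_le_sum fun W hW =>
        hDI R δ w K η W u hR hδ hw hwR hK hη (hP W hW).1 (hP W hW).2
    · intro W _
      have := (ww_pos N R δ (w ^ 2) W u).le
      positivity
  refine hint.trans ((mul_le_mul_right hsum _).trans (le_of_eq ?_))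
  rw [← ENNReal.ofReal_mul (mul_nonneg hA0 (by linarith))]
  congr 1
  rw [hA]
  have h1 := hNu.ne'
  field_simp
  ring

end Pool.Agent.H42.B2.DEN
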