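import Pool.Agent.H88.B2.Targets

/-! Board `bpd_modules`, row GRP: assignment of the small caps to the caps of radius `s`. -/

set_option autoImplicit false

namespace Pool.Agent.H42.B2.GRP

open Pool.Agent.H83.G Pool.Agent.H88.B2

theorem pf_GRP : T_GRP := by
  intro m s hs
  have hm : (0 : ℝ) < (m : ℝ) + 1 := by positivity
  refine ⟨fun x i => ⌊((m : ℝ) + 1) / s * x i⌋, fun x => ?_⟩
  have hc : ∀ i, |(x - ctr s (fun i => ⌊((m : ℝ) + 1) / s * x i⌋)) i| ≤ s / ((m : ℝ) + 1) := by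
    intro i
    change |x i - (s / ((m : ℝ) + 1)) * ((⌊((m : ℝ) + 1) / s * x i⌋ : ℤ) : ℝ)| ≤ _
    have h1 := Int.floor_le (((m : ℝ) + 1) / s * x i)
    have h2 := Int.lt_floor_add_one (((m : ℝ) + 1) / s * x i)
    have h3 : (s / ((m : ℝ) + 1)) * (((m : ℝ) + 1) / s * x i) = x i := by
      field_simp
    have h4 : 0 < s / ((m : ℝ) + 1) := by positivity
    have h5 := mul_le_mul_of_nonneg_left h1 h4.le
    have h6 := mul_le_mul_of_nonneg_left h2.le h4.le
    rw [h3] at h5 h6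
    rw [abs_le]
    constructor <;> nlinarith
  have h7 : ‖x - ctr s (fun i => ⌊((m : ℝ) + 1) / s * x i⌋)‖ ^ 2 ≤ s ^ 2 := by
    rw [EuclideanSpace.norm_sq_eq]
    have h8 : ∀ i ∈ (Finset.univ : Finset (Fin m)),
        ‖(x - ctr s (fun i => ⌊((m : ℝ) + 1) / s * x i⌋)) i‖ ^ 2 ≤ (s / ((m : ℝ) + 1)) ^ 2 := by
      intro i _
      rw [Real.norm_eq_abs]
      exact pow_le_pow_left₀ (abs_nonneg _) (hc i) 2
    refine (Finset.sum_le_card_nsmul _ _ _ h8).trans ?_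
    rw [Finset.card_univ, Fintype.card_fin, nsmul_eq_mul, div_pow, mul_div_assoc',
      div_le_iff₀ (by positivity)]
    have h9 : (m : ℝ) ≤ ((m : ℝ) + 1) ^ 2 := by
      have : (0 : ℝ) ≤ m := Nat.cast_nonneg m
      nlinarith
    nlinarith [sq_nonneg s, mul_le_mul_of_nonneg_right h9 (sq_nonneg s)]
  exact (sq_le_sq₀ (norm_nonneg _) hs.le).1 h7

end Pool.Agent.H42.B2.GRP
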